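import Mathlib

set_option maxSynthPendingDepth 3

open scoped ContDiff Topology
open Set Filter

namespace Pool.Agent.X177.Hyp

/-- `ℝ⁶` with coordinates `(x₁, y₁, z₁, x₂, y₂, z₂)`. -/
abbrev E6 : Type := Fin 6 → ℝ

/-- derivative of a function along a vector field -/
noncomputable def dd (V : E6 → E6) (F : E6 → ℝ) (x : E6) : ℝ := fderiv ℝ F x (V x)

theorem contDiffOn_dd {V : E6 → E6} {F : E6 → ℝ} {U : Set E6} (hU : IsOpen U)
    (hV : ContDiff ℝ ∞ V) (hF : ContDiffOn ℝ ∞ F U) : ContDiffOn ℝ ∞ (dd V F) U := by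
  have h1 : ContDiffOn ℝ ∞ (fderiv ℝ F) U := hF.fderiv_of_isOpen hU (by simp)
  exact h1.clm_apply hV.contDiffOn

theorem contDiffAt_of {F : E6 → ℝ} {U : Set E6} (hU : IsOpen U) (hF : ContDiffOn ℝ ∞ F U)
    {x : E6} (hx : x ∈ U) : ContDiffAt ℝ ∞ F x := hF.contDiffAt (hU.mem_nhds hx)

theorem diffAt_of {F : E6 → ℝ} {U : Set E6} (hU : IsOpen U) (hF : ContDiffOn ℝ ∞ F U)
    {x : E6} (hx : x ∈ U) : DifferentiableAt ℝ F x :=
  (contDiffAt_of hU hF hx).differentiableAt (by simp)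

theorem two_le_inf : (2 : WithTop ℕ∞) ≤ ∞ := by
  have h12 : (2 : WithTop ℕ∞) = ((2 : ℕ∞) : WithTop ℕ∞) := by norm_num
  rw [h12]
  exact WithTop.coe_le_coe.2 le_top

theorem dd_bracket {V W : E6 → E6} {F : E6 → ℝ} {U : Set E6} (hU : IsOpen U)
    (hV : ContDiff ℝ ∞ V) (hW : ContDiff ℝ ∞ W) (hF : ContDiffOn ℝ ∞ F U) {x : E6} (hx : x ∈ U) :
    dd (VectorField.lieBracket ℝ V W) F x = dd V (dd W F) x - dd W (dd V F) x := by
  have h := VectorField.fderiv_apply_lieBracket (𝕜 := ℝ) (f := F) (V := V) (W := W) (x := x)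
    (n := ∞) (contDiffAt_of hU hF hx) (by simp [two_le_inf]) (hW.differentiable (by simp) x)
    (hV.differentiable (by simp) x)
  exact h

/-- if `V` and `W` are in the kernel of `dZ - Y dX` on `U`, the value of `dZ - Y dX` on `[V, W]` -/
theorem contact_bracket {V W : E6 → E6} {X Y Z : E6 → ℝ} {U : Set E6} (hU : IsOpen U)
    (hV : ContDiff ℝ ∞ V) (hW : ContDiff ℝ ∞ W) (hX : ContDiffOn ℝ ∞ X U)
    (hY : ContDiffOn ℝ ∞ Y U) (hZ : ContDiffOn ℝ ∞ Z U)
    (hVk : ∀ x ∈ U, dd V Z x = Y x * dd V X x) (hWk : ∀ x ∈ U, dd W Z x = Y x * dd W X x)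
    {x : E6} (hx : x ∈ U) :
    dd (VectorField.lieBracket ℝ V W) Z x - Y x * dd (VectorField.lieBracket ℝ V W) X x
      = dd V Y x * dd W X x - dd W Y x * dd V X x := by
  rw [dd_bracket hU hV hW hZ hx, dd_bracket hU hV hW hX hx]
  have key : ∀ (A B : E6 → E6), ContDiff ℝ ∞ B → (∀ x ∈ U, dd B Z x = Y x * dd B X x) →
      dd A (dd B Z) x = dd A Y x * dd B X x + Y x * dd A (dd B X) x := by
    intro A B hB hBk
    have h1 : dd B Z =ᶠ[𝓝 x] fun y => Y y * dd B X y := by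
      filter_upwards [hU.mem_nhds hx] with y hy using hBk y hy
    have h2 : DifferentiableAt ℝ Y x := diffAt_of hU hY hx
    have h3 : DifferentiableAt ℝ (dd B X) x := diffAt_of hU (contDiffOn_dd hU hB hX) hx
    have h4 : fderiv ℝ (dd B Z) x = Y x • fderiv ℝ (dd B X) x + (dd B X x) • fderiv ℝ Y x := by
      rw [h1.fderiv_eq]
      exact fderiv_fun_mul h2 h3
    show fderiv ℝ (dd B Z) x (A x) = _
    rw [h4]
    simp only [add_apply, smul_apply, smul_eq_mul]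
    show _ = fderiv ℝ Y x (A x) * dd B X x + Y x * fderiv ℝ (dd B X) x (A x)
    ring
  rw [key V W hW hWk, key W V hV hVk]
  ring

/-- if `V` and `W` kill `F` on `U` then so does `[V, W]` -/
theorem kill_bracket {V W : E6 → E6} {F : E6 → ℝ} {U : Set E6} (hU : IsOpen U)
    (hV : ContDiff ℝ ∞ V) (hW : ContDiff ℝ ∞ W) (hF : ContDiffOn ℝ ∞ F U)
    (hVk : ∀ x ∈ U, dd V F x = 0) (hWk : ∀ x ∈ U, dd W F x = 0)
    {x : E6} (hx : x ∈ U) : dd (VectorField.lieBracket ℝ V W) F x = 0 := by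
  rw [dd_bracket hU hV hW hF hx]
  have key : ∀ (A B : E6 → E6), (∀ x ∈ U, dd B F x = 0) → dd A (dd B F) x = 0 := by
    intro A B hBk
    have h1 : dd B F =ᶠ[𝓝 x] fun _ => 0 := by
      filter_upwards [hU.mem_nhds hx] with y hy using hBk y hy
    show fderiv ℝ (dd B F) x (A x) = 0
    rw [h1.fderiv_eq]
    simp
  rw [key V W hWk, key W V hVk, sub_zero]

/-- the frame of the distribution -/
def F1 (x : E6) : E6 := ![1, 0, x 1, 0, 0, (1 + x 0) * x 1]
def F2 (_x : E6) : E6 := ![0, 1, 0, 0, 0, 0]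
def F3 (x : E6) : E6 := ![0, 0, x 4, 1, 0, 0]
def F4 (_x : E6) : E6 := ![0, 0, 0, 0, 1, 0]
def T1 (_x : E6) : E6 := ![0, 0, 1, 0, 0, 0]
def T2 (_x : E6) : E6 := ![0, 0, 0, 0, 0, 1]
/-- `[F2, F1]` -/
def W1 (x : E6) : E6 := ![0, 0, 1, 0, 0, 1 + x 0]

theorem cd_of {V : E6 → E6} (h : ∀ i, ContDiff ℝ ∞ (fun x => V x i)) : ContDiff ℝ ∞ V :=
  contDiff_pi.2 h

theorem cd_F1 : ContDiff ℝ ∞ F1 := by
  apply cd_of
  intro i
  fin_cases i <;> simp [F1] <;> fun_prop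

theorem cd_F2 : ContDiff ℝ ∞ F2 := contDiff_const
theorem cd_F3 : ContDiff ℝ ∞ F3 := by
  apply cd_of
  intro i
  fin_cases i <;> simp [F3] <;> fun_prop
theorem cd_F4 : ContDiff ℝ ∞ F4 := contDiff_const
theorem cd_T1 : ContDiff ℝ ∞ T1 := contDiff_const
theorem cd_T2 : ContDiff ℝ ∞ T2 := contDiff_const
theorem cd_W1 : ContDiff ℝ ∞ W1 := by
  apply cd_of
  intro i
  fin_cases i <;> simp [W1] <;> fun_prop

theorem fderiv_F1 (x v : E6) :
    fderiv ℝ F1 x v = ![0, 0, v 1, 0, 0, v 0 * x 1 + (1 + x 0) * v 1] := by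
  have hx : ∀ i : Fin 6, HasFDerivAt (fun y : E6 => y i)
      (ContinuousLinearMap.proj (R := ℝ) (φ := fun _ : Fin 6 => ℝ) i) x := fun i =>
    (ContinuousLinearMap.proj (R := ℝ) (φ := fun _ : Fin 6 => ℝ) i).hasFDerivAt
  ext i
  have h2 : DifferentiableAt ℝ F1 x := cd_F1.differentiable (by simp) x
  have h3 : HasFDerivAt (fun y => F1 y i) ((ContinuousLinearMap.proj i).comp (fderiv ℝ F1 x)) x :=
    (hasFDerivAt_pi'.1 h2.hasFDerivAt) i
  have h4 : fderiv ℝ F1 x v i = fderiv ℝ (fun y => F1 y i) x v := by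
    rw [h3.fderiv]; rfl
  rw [h4]
  fin_cases i
  · have : (fun y : E6 => F1 y 0) = fun _ => (1 : ℝ) := rfl
    show fderiv ℝ (fun y : E6 => F1 y 0) x v = _
    rw [this]; simp
  · have : (fun y : E6 => F1 y 1) = fun _ => (0 : ℝ) := rfl
    show fderiv ℝ (fun y : E6 => F1 y 1) x v = _
    rw [this]; simp
  · have : (fun y : E6 => F1 y 2) = fun y => y 1 := rfl
    show fderiv ℝ (fun y : E6 => F1 y 2) x v = _
    rw [this, (hx 1).fderiv]; simp
  · have : (fun y : E6 => F1 y 3) = fun _ => (0 : ℝ) := rfl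
    show fderiv ℝ (fun y : E6 => F1 y 3) x v = _
    rw [this]; simp
  · have : (fun y : E6 => F1 y 4) = fun _ => (0 : ℝ) := rfl
    show fderiv ℝ (fun y : E6 => F1 y 4) x v = _
    rw [this]; simp
  · have : (fun y : E6 => F1 y 5) = fun y => (1 + y 0) * y 1 := rfl
    show fderiv ℝ (fun y : E6 => F1 y 5) x v = _
    rw [this]
    have h5 := (((hx 0).const_add 1).mul (hx 1)).fderiv
    refine (congrArg (fun L : E6 →L[ℝ] ℝ => L v) h5).trans ?_
    simp
    ring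

theorem fderiv_F3 (x v : E6) :
    fderiv ℝ F3 x v = ![0, 0, v 4, 0, 0, 0] := by
  have hx : ∀ i : Fin 6, HasFDerivAt (fun y : E6 => y i)
      (ContinuousLinearMap.proj (R := ℝ) (φ := fun _ : Fin 6 => ℝ) i) x := fun i =>
    (ContinuousLinearMap.proj (R := ℝ) (φ := fun _ : Fin 6 => ℝ) i).hasFDerivAt
  ext i
  have h2 : DifferentiableAt ℝ F3 x := cd_F3.differentiable (by simp) x
  have h3 : HasFDerivAt (fun y => F3 y i) ((ContinuousLinearMap.proj i).comp (fderiv ℝ F3 x)) x :=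
    (hasFDerivAt_pi'.1 h2.hasFDerivAt) i
  have h4 : fderiv ℝ F3 x v i = fderiv ℝ (fun y => F3 y i) x v := by
    rw [h3.fderiv]; rfl
  rw [h4]
  fin_cases i
  · have : (fun y : E6 => F3 y 0) = fun _ => (0 : ℝ) := rfl
    show fderiv ℝ (fun y : E6 => F3 y 0) x v = _
    rw [this]; simp
  · have : (fun y : E6 => F3 y 1) = fun _ => (0 : ℝ) := rfl
    show fderiv ℝ (fun y : E6 => F3 y 1) x v = _
    rw [this]; simp
  · have : (fun y : E6 => F3 y 2) = fun y => y 4 := rfl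
    show fderiv ℝ (fun y : E6 => F3 y 2) x v = _
    rw [this, (hx 4).fderiv]; simp
  · have : (fun y : E6 => F3 y 3) = fun _ => (1 : ℝ) := rfl
    show fderiv ℝ (fun y : E6 => F3 y 3) x v = _
    rw [this]; simp
  · have : (fun y : E6 => F3 y 4) = fun _ => (0 : ℝ) := rfl
    show fderiv ℝ (fun y : E6 => F3 y 4) x v = _
    rw [this]; simp
  · have : (fun y : E6 => F3 y 5) = fun _ => (0 : ℝ) := rfl
    show fderiv ℝ (fun y : E6 => F3 y 5) x v = _
    rw [this]; simp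

theorem fderiv_W1 (x v : E6) :
    fderiv ℝ W1 x v = ![0, 0, 0, 0, 0, v 0] := by
  have hx : ∀ i : Fin 6, HasFDerivAt (fun y : E6 => y i)
      (ContinuousLinearMap.proj (R := ℝ) (φ := fun _ : Fin 6 => ℝ) i) x := fun i =>
    (ContinuousLinearMap.proj (R := ℝ) (φ := fun _ : Fin 6 => ℝ) i).hasFDerivAt
  ext i
  have h2 : DifferentiableAt ℝ W1 x := cd_W1.differentiable (by simp) x
  have h3 : HasFDerivAt (fun y => W1 y i) ((ContinuousLinearMap.proj i).comp (fderiv ℝ W1 x)) x :=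
    (hasFDerivAt_pi'.1 h2.hasFDerivAt) i
  have h4 : fderiv ℝ W1 x v i = fderiv ℝ (fun y => W1 y i) x v := by
    rw [h3.fderiv]; rfl
  rw [h4]
  fin_cases i
  · have : (fun y : E6 => W1 y 0) = fun _ => (0 : ℝ) := rfl
    show fderiv ℝ (fun y : E6 => W1 y 0) x v = _
    rw [this]; simp
  · have : (fun y : E6 => W1 y 1) = fun _ => (0 : ℝ) := rfl
    show fderiv ℝ (fun y : E6 => W1 y 1) x v = _
    rw [this]; simp
  · have : (fun y : E6 => W1 y 2) = fun _ => (1 : ℝ) := rfl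
    show fderiv ℝ (fun y : E6 => W1 y 2) x v = _
    rw [this]; simp
  · have : (fun y : E6 => W1 y 3) = fun _ => (0 : ℝ) := rfl
    show fderiv ℝ (fun y : E6 => W1 y 3) x v = _
    rw [this]; simp
  · have : (fun y : E6 => W1 y 4) = fun _ => (0 : ℝ) := rfl
    show fderiv ℝ (fun y : E6 => W1 y 4) x v = _
    rw [this]; simp
  · have : (fun y : E6 => W1 y 5) = fun y => 1 + y 0 := rfl
    show fderiv ℝ (fun y : E6 => W1 y 5) x v = _
    rw [this, ((hx 0).const_add 1).fderiv]; simp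

theorem fderiv_F2 (x v : E6) : fderiv ℝ F2 x v = 0 := by
  have : F2 = fun _ => (![0, 1, 0, 0, 0, 0] : E6) := rfl
  rw [this]; simp

theorem fderiv_F4 (x v : E6) : fderiv ℝ F4 x v = 0 := by
  have : F4 = fun _ => (![0, 0, 0, 0, 1, 0] : E6) := rfl
  rw [this]; simp

open VectorField in
theorem br_21 : lieBracket ℝ F2 F1 = W1 := by
  ext1 x
  simp only [lieBracket, fderiv_F1, fderiv_F2]
  ext i
  fin_cases i <;> simp [F2, W1]

open VectorField in
theorem br_43 : lieBracket ℝ F4 F3 = T1 := by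
  ext1 x
  simp only [lieBracket, fderiv_F3, fderiv_F4]
  ext i
  fin_cases i <;> simp [F4, T1]

open VectorField in
theorem br_13 : lieBracket ℝ F1 F3 = fun _ => 0 := by
  ext1 x
  simp only [lieBracket, fderiv_F3, fderiv_F1]
  ext i
  fin_cases i <;> simp [F1, F3]

open VectorField in
theorem br_14 : lieBracket ℝ F1 F4 = fun _ => 0 := by
  ext1 x
  simp only [lieBracket, fderiv_F4, fderiv_F1]
  ext i
  fin_cases i <;> simp [F4]

open VectorField in
theorem br_23 : lieBracket ℝ F2 F3 = fun _ => 0 := by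
  ext1 x
  simp only [lieBracket, fderiv_F3, fderiv_F2]
  ext i
  fin_cases i <;> simp [F2]

open VectorField in
theorem br_24 : lieBracket ℝ F2 F4 = fun _ => 0 := by
  ext1 x
  simp only [lieBracket, fderiv_F4, fderiv_F2]
  simp

open VectorField in
theorem br_1W : lieBracket ℝ F1 W1 = T2 := by
  ext1 x
  simp only [lieBracket, fderiv_W1, fderiv_F1]
  ext i
  fin_cases i <;> simp [F1, W1, T2]

theorem dd_zero (F : E6 → ℝ) (x : E6) : dd (fun _ => 0) F x = 0 := by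
  simp [dd]

theorem dd_W1 (F : E6 → ℝ) (x : E6) : dd W1 F x = dd T1 F x + (1 + x 0) * dd T2 F x := by
  have h : W1 x = T1 x + (1 + x 0) • T2 x := by
    ext i
    fin_cases i <;> simp [W1, T1, T2]
  show fderiv ℝ F x (W1 x) = _
  rw [h, map_add, map_smul]
  rfl

/-- **Key lemma.** If `X, Y, Z` are smooth near `0` and the frame of the distribution is in the
kernel of `dZ - Y dX`, then `dZ - Y dX` kills `∂_{z₁}` at `0`. -/
theorem key {X Y Z : E6 → ℝ} {U : Set E6} (hU : IsOpen U) (h0 : (0 : E6) ∈ U)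
    (hX : ContDiffOn ℝ ∞ X U) (hY : ContDiffOn ℝ ∞ Y U) (hZ : ContDiffOn ℝ ∞ Z U)
    (h1 : ∀ x ∈ U, dd F1 Z x = Y x * dd F1 X x)
    (h2 : ∀ x ∈ U, dd F2 Z x = Y x * dd F2 X x)
    (h3 : ∀ x ∈ U, dd F3 Z x = Y x * dd F3 X x)
    (h4 : ∀ x ∈ U, dd F4 Z x = Y x * dd F4 X x) :
    dd T1 Z 0 - Y 0 * dd T1 X 0 = 0 := by
  by_contra hne
  -- shrink the neighbourhood
  set p : E6 → ℝ := fun x => dd T1 Z x - Y x * dd T1 X x with hp
  set q : E6 → ℝ := fun x => dd T2 Z x - Y x * dd T2 X x with hq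
  have hpc : ContinuousOn p U :=
    ((contDiffOn_dd hU cd_T1 hZ).continuousOn).sub
      (hY.continuousOn.mul (contDiffOn_dd hU cd_T1 hX).continuousOn)
  obtain ⟨V, hVU, hV, h0V, hpV⟩ : ∃ V ⊆ U, IsOpen V ∧ (0 : E6) ∈ V ∧ ∀ x ∈ V, p x ≠ 0 := by
    refine ⟨U ∩ p ⁻¹' {0}ᶜ, inter_subset_left, hpc.isOpen_inter_preimage hU
      isOpen_compl_singleton, ⟨h0, hne⟩, fun x hx => hx.2⟩
  have e13 : ∀ x ∈ V, dd F1 Y x * dd F3 X x - dd F3 Y x * dd F1 X x = 0 := by
    intro x hx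
    rw [← contact_bracket hU cd_F1 cd_F3 hX hY hZ h1 h3 (hVU hx), br_13, dd_zero, dd_zero]
    ring
  have e14 : ∀ x ∈ V, dd F1 Y x * dd F4 X x - dd F4 Y x * dd F1 X x = 0 := by
    intro x hx
    rw [← contact_bracket hU cd_F1 cd_F4 hX hY hZ h1 h4 (hVU hx), br_14, dd_zero, dd_zero]
    ring
  have e23 : ∀ x ∈ V, dd F2 Y x * dd F3 X x - dd F3 Y x * dd F2 X x = 0 := by
    intro x hx
    rw [← contact_bracket hU cd_F2 cd_F3 hX hY hZ h2 h3 (hVU hx), br_23, dd_zero, dd_zero]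
    ring
  have e24 : ∀ x ∈ V, dd F2 Y x * dd F4 X x - dd F4 Y x * dd F2 X x = 0 := by
    intro x hx
    rw [← contact_bracket hU cd_F2 cd_F4 hX hY hZ h2 h4 (hVU hx), br_24, dd_zero, dd_zero]
    ring
  have e43 : ∀ x ∈ V, dd F4 Y x * dd F3 X x - dd F3 Y x * dd F4 X x = p x := by
    intro x hx
    rw [← contact_bracket hU cd_F4 cd_F3 hX hY hZ h4 h3 (hVU hx), br_43]
  have e21 : ∀ x ∈ V, dd F2 Y x * dd F1 X x - dd F1 Y x * dd F2 X x
      = p x + (1 + x 0) * q x := by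
    intro x hx
    rw [← contact_bracket hU cd_F2 cd_F1 hX hY hZ h2 h1 (hVU hx), br_21, dd_W1, dd_W1]
    ring
  -- `F1` and `F2` kill `X`, `Y`, `Z`
  have k1Y : ∀ x ∈ V, dd F1 Y x = 0 := by
    intro x hx
    have : p x * dd F1 Y x = 0 := by
      rw [← e43 x hx]
      linear_combination (dd F4 Y x) * e13 x hx - (dd F3 Y x) * e14 x hx
    exact (mul_eq_zero.1 this).resolve_left (hpV x hx)
  have k1X : ∀ x ∈ V, dd F1 X x = 0 := by
    intro x hx
    have : p x * dd F1 X x = 0 := by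
      rw [← e43 x hx]
      linear_combination (dd F4 X x) * e13 x hx - (dd F3 X x) * e14 x hx
    exact (mul_eq_zero.1 this).resolve_left (hpV x hx)
  have k2Y : ∀ x ∈ V, dd F2 Y x = 0 := by
    intro x hx
    have : p x * dd F2 Y x = 0 := by
      rw [← e43 x hx]
      linear_combination (dd F4 Y x) * e23 x hx - (dd F3 Y x) * e24 x hx
    exact (mul_eq_zero.1 this).resolve_left (hpV x hx)
  have k2X : ∀ x ∈ V, dd F2 X x = 0 := by
    intro x hx
    have : p x * dd F2 X x = 0 := by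
      rw [← e43 x hx]
      linear_combination (dd F4 X x) * e23 x hx - (dd F3 X x) * e24 x hx
    exact (mul_eq_zero.1 this).resolve_left (hpV x hx)
  have k1Z : ∀ x ∈ V, dd F1 Z x = 0 := by
    intro x hx
    rw [h1 x (hVU hx), k1X x hx, mul_zero]
  have k2Z : ∀ x ∈ V, dd F2 Z x = 0 := by
    intro x hx
    rw [h2 x (hVU hx), k2X x hx, mul_zero]
  have kWX : ∀ x ∈ V, dd W1 X x = 0 := by
    intro x hx
    rw [← br_21]
    exact kill_bracket hV cd_F2 cd_F1 (hX.mono hVU) k2X k1X hx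
  have kWZ : ∀ x ∈ V, dd W1 Z x = 0 := by
    intro x hx
    rw [← br_21]
    exact kill_bracket hV cd_F2 cd_F1 (hZ.mono hVU) k2Z k1Z hx
  have kTX : dd T2 X 0 = 0 := by
    rw [← br_1W]
    exact kill_bracket hV cd_F1 cd_W1 (hX.mono hVU) k1X kWX h0V
  have kTZ : dd T2 Z 0 = 0 := by
    rw [← br_1W]
    exact kill_bracket hV cd_F1 cd_W1 (hZ.mono hVU) k1Z kWZ h0V
  have e := e21 0 h0V
  rw [k2Y 0 h0V, k1Y 0 h0V] at e
  apply hpV 0 h0V
  have hq0 : q 0 = 0 := by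
    show dd T2 Z 0 - Y 0 * dd T2 X 0 = 0
    rw [kTX, kTZ]; ring
  rw [hq0] at e
  linarith

end Pool.Agent.X177.Hyp
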